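import Mathlib

set_option autoImplicit false

namespace Pool.Agent.H.MP_fc8a61_lc

open Relation

/-- Nonterminals of the simulating grammar. -/
inductive NT (Q G : Type) : Type
  | st (q : Q) : NT Q G
  | l (t : Bool) (a : G) : NT Q G
  | a (t : Bool) (a : G) : NT Q G
  | r (t : Bool) (a : G) : NT Q G
  | m (t : Bool) : NT Q G

instance {Q G : Type} [Finite Q] [Finite G] : Finite (NT Q G) :=
  Finite.of_surjective (fun x : Q ⊕ (Bool × G) ⊕ (Bool × G) ⊕ (Bool × G) ⊕ Bool =>
    match x with
    | .inl q => NT.st q
    | .inr (.inl p) => NT.l p.1 p.2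
    | .inr (.inr (.inl p)) => NT.a p.1 p.2
    | .inr (.inr (.inr (.inl p))) => NT.r p.1 p.2
    | .inr (.inr (.inr (.inr t))) => NT.m t) (fun x => by
      cases x with
      | st q => exact ⟨.inl q, rfl⟩
      | l t a => exact ⟨.inr (.inl (t, a)), rfl⟩
      | a t a => exact ⟨.inr (.inr (.inl (t, a))), rfl⟩
      | r t a => exact ⟨.inr (.inr (.inr (.inl (t, a)))), rfl⟩
      | m t => exact ⟨.inr (.inr (.inr (.inr t))), rfl⟩)

instance {T N : Type} [Finite T] [Finite N] : Finite (Symbol T N) :=
  Finite.of_surjective (fun x : T ⊕ N => x.elim Symbol.terminal Symbol.nonterminal) (fun x => by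
    cases x with
    | terminal a => exact ⟨.inl a, rfl⟩
    | nonterminal a => exact ⟨.inr a, rfl⟩)

/-- Weak embedding of words: monotone, repetitions allowed. -/
inductive WE {G : Type} : List G → List G → Prop
  | nil (l : List G) : WE [] l
  | skip {p l : List G} (a : G) : WE p l → WE p (a :: l)
  | use {p l : List G} (a : G) : WE p (a :: l) → WE (a :: p) (a :: l)

theorem WE.sub {G : Type} {p l : List G} (h : WE p l) (hc : p.IsChain (· ≠ ·)) : p.Sublist l := by
  induction h with
  | nil l => exact List.nil_sublist l
  | skip a _ ih => exact (ih hc).cons a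
  | @use p l a _ ih =>
    have h1 := ih hc.tail
    refine List.Sublist.cons_cons a ?_
    cases p with
    | nil => exact List.nil_sublist l
    | cons b p =>
      cases h1 with
      | cons _ h => exact h
      | cons_cons _ h => exact absurd rfl (List.isChain_cons_cons.1 hc).1

theorem WE.eq_nil {G : Type} {p : List G} (h : WE p []) : p = [] := by
  cases h; rfl

variable {T Q G : Type}

/-- Runs of a two-tape generator with output. -/
inductive Gen (δ : Q → List G → List G → List T → Option Q → Prop) :
    Option Q → List G → List G → List T → Prop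
  | stop : Gen δ none [] [] []
  | step {q : Q} {x y : List G} {o : List T} {q' : Option Q} {a b : List G} {c : List T} :
      δ q x y o q' → Gen δ q' a b c → Gen δ (some q) (x ++ a) (y ++ b) (o ++ c)

/-- Left symbols. -/
def xl : T ⊕ Bool × G → Symbol T (NT Q G)
  | .inl a => .terminal a
  | .inr p => .nonterminal (.l p.1 p.2)

/-- Right symbols. -/
def rr (p : Bool × G) : Symbol T (NT Q G) := .nonterminal (.r p.1 p.2)

/-- State symbols. -/
def ss (q : Q) : Symbol T (NT Q G) := .nonterminal (.st q)

/-- Left part of an emitted word. -/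
def eX (x y : List G) (o : List T) : List (T ⊕ Bool × G) :=
  o.map .inl ++ x.map (fun a => .inr (false, a)) ++ y.map (fun a => .inr (true, a))

/-- Right part of an emitted word, in processing order. -/
def eP (x y : List G) : List (Bool × G) := y.map (fun a => (false, a)) ++ x.map (fun a => (true, a))

/-- The emitted word. -/
def emit (x y : List G) (o : List T) (q : Option Q) : List (Symbol T (NT Q G)) :=
  (eX x y o).map xl ++ q.toList.map ss ++ ((eP x y).map rr).reverse

/-- Steps of the simulating grammar. -/
inductive HS (δ : Q → List G → List G → List T → Option Q → Prop) :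
    List (Symbol T (NT Q G)) → List (Symbol T (NT Q G)) → Prop
  | gen (u v) {q x y o q'} : δ q x y o q' →
      HS δ (u ++ [.nonterminal (.st q)] ++ v) (u ++ emit x y o q' ++ v)
  | act (u v t a) : (∀ b, .nonterminal (.l t b) ∉ u) → (∀ b, .nonterminal (.a t b) ∉ u) →
      HS δ (u ++ [.nonterminal (.l t a)] ++ v) (u ++ [.nonterminal (.a t a)] ++ v)
  | del (u v t a) : HS δ (u ++ [.nonterminal (.a t a)] ++ v) (u ++ [] ++ v)
  | chk (u v t a) : .nonterminal (.a t a) ∈ u → .nonterminal (.m t) ∉ u →
      HS δ (u ++ [.nonterminal (.r t a)] ++ v) (u ++ [.nonterminal (.m t)] ++ v)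
  | fin (u v t) : (∀ b, .nonterminal (.l t b) ∉ u) → (∀ b, .nonterminal (.a t b) ∉ u) →
      (∀ q, .nonterminal (.st q) ∉ u) → HS δ (u ++ [.nonterminal (.m t)] ++ v) (u ++ [] ++ v)

/-- Track projection. -/
def pk (t : Bool) (p : Bool × G) : Option G := if p.1 = t then some p.2 else none

/-- Track projection of left symbols. -/
def pj (t : Bool) : T ⊕ Bool × G → Option G
  | .inl _ => none
  | .inr p => pk t p

theorem eX_pj (x y : List G) (o : List T) (t : Bool) :
    (eX x y o).filterMap (pj t) = cond t y x := by
  cases t <;> simp [eX, pj, pk, List.filterMap_map, Function.comp_def]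

theorem eX_left (x y : List G) (o : List T) : (eX x y o).filterMap Sum.getLeft? = o := by
  simp [eX, List.filterMap_map, Function.comp_def]

theorem eP_pk (x y : List G) (t : Bool) : (eP x y).filterMap (pk t) = cond t x y := by
  cases t <;> simp [eP, pk, List.filterMap_map, Function.comp_def]

variable {δ : Q → List G → List G → List T → Option Q → Prop}

theorem gen_run {q : Option Q} {a b : List G} {c : List T} (h : Gen δ q a b c) :
    ∃ (X : List (T ⊕ Bool × G)) (P : List (Bool × G)), X.filterMap Sum.getLeft? = c ∧
      (∀ t, X.filterMap (pj t) = cond t b a) ∧ (∀ t, P.filterMap (pk t) = cond t a b) ∧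
      ∀ u v, ReflTransGen (HS δ) (u ++ q.toList.map ss ++ v)
        (u ++ X.map xl ++ (P.map rr).reverse ++ v) := by
  induction h with
  | stop => exact ⟨[], [], rfl, by simp, by simp, fun u v => by simpa using ReflTransGen.refl⟩
  | @step q x y o q' a b c h _ ih =>
    obtain ⟨X, P, h1, h2, h3, h4⟩ := ih
    refine ⟨eX x y o ++ X, eP x y ++ P, by rw [List.filterMap_append, eX_left, h1],
      fun t => ?_, fun t => ?_, fun u v => ?_⟩
    · rw [List.filterMap_append, eX_pj, h2]; cases t <;> rfl
    · rw [List.filterMap_append, eP_pk, h3]; cases t <;> rfl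
    · refine ReflTransGen.head (HS.gen u v h) ?_
      have := h4 (u ++ (eX x y o).map xl) (((eP x y).map rr).reverse ++ v)
      simpa [emit] using this

theorem clear (P : List (Bool × G)) : ∀ (X : List (T ⊕ Bool × G)) (Z : List (Symbol T (NT Q G))),
    (∀ t, X.filterMap (pj t) = P.filterMap (pk t)) →
    ReflTransGen (HS δ) (X.map xl ++ (P.map rr).reverse ++ Z)
      ((X.filterMap Sum.getLeft?).map .terminal ++
        (P.reverse.map Prod.fst).map (fun t => .nonterminal (.m t)) ++ Z) := by
  induction P with
  | nil =>
    intro X Z h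
    have : X.map (xl (Q := Q)) = (X.filterMap Sum.getLeft?).map .terminal := by
      induction X with
      | nil => rfl
      | cons s X ih =>
        rcases s with s | ⟨t, a⟩
        · simp only [List.map_cons, List.filterMap_cons, Sum.getLeft?_inl, xl]
          rw [ih (fun t => by simpa [pj] using h t)]
        · simpa [pj, pk] using h t
    rw [this]
    exact ReflTransGen.refl
  | cons p P ih =>
    obtain ⟨t, a⟩ := p
    intro X Z h
    have h1 := h t
    rw [List.filterMap_cons_some (show pk t (t, a) = some a by simp [pk])] at h1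
    obtain ⟨X1, s, X2, rfl, h2, h3, h4⟩ := List.filterMap_eq_cons_iff.1 h1
    have hs : s = .inr (t, a) := by
      rcases s with s | ⟨t', a'⟩
      · simp [pj] at h3
      · simp only [pj, pk] at h3
        split_ifs at h3 with h5
        · simp only [Option.some.injEq] at h3; rw [h5, h3]
    subst hs
    have s1 := HS.act (δ := δ) (X1.map xl) (X2.map xl ++ (((t, a) :: P).map rr).reverse ++ Z) t a
      (fun b hb => by
        obtain ⟨s, hs, h5⟩ := List.mem_map.1 hb
        have := h2 s hs
        rcases s with s | ⟨t', a'⟩
        · simp [xl] at h5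
        · simp only [xl, Symbol.nonterminal.injEq, NT.l.injEq] at h5
          simp [pj, pk, h5.1] at this)
      (fun b hb => by
        obtain ⟨s, hs, h5⟩ := List.mem_map.1 hb
        rcases s with s | ⟨t', a'⟩ <;> simp [xl] at h5)
    have s2 := HS.chk (δ := δ) (X1.map xl ++ [.nonterminal (.a t a)] ++ X2.map xl ++
      (P.map rr).reverse) Z t a (by simp) (by
        simp only [List.mem_append, List.mem_map, List.mem_reverse, List.mem_singleton, rr]
        rintro (((⟨s, -, h5⟩ | h5) | ⟨s, -, h5⟩) | ⟨s, -, h5⟩)
        · rcases s with s | s <;> simp [xl] at h5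
        · simp at h5
        · rcases s with s | s <;> simp [xl] at h5
        · simp at h5)
    have s3 := HS.del (δ := δ) (X1.map xl) (X2.map xl ++ (P.map rr).reverse ++
      .nonterminal (.m t) :: Z) t a
    have s4 := ih (X1 ++ X2) (.nonterminal (.m t) :: Z) (fun t' => by
      have h5 := h t'
      by_cases h6 : t = t'
      · subst h6
        rw [List.filterMap_append, List.filterMap_eq_nil_iff.2 h2, h4]; rfl
      · simpa [pj, pk, h6] using h5)
    simp only [List.map_append, List.map_cons, List.reverse_cons, List.append_assoc,
      List.cons_append, List.nil_append, List.append_nil, List.filterMap_append, List.map_nil,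
      List.filterMap_cons, Sum.getLeft?_inr] at s1 s2 s3 s4 ⊢
    exact ReflTransGen.head s1 (ReflTransGen.head s2 (ReflTransGen.head s3 s4))

theorem erase (w : List T) (M : List Bool) :
    ReflTransGen (HS δ) (w.map .terminal ++ M.map (fun t => .nonterminal (.m t)))
      (w.map .terminal) := by
  induction M with
  | nil => simpa using ReflTransGen.refl
  | cons t M ih =>
    have := HS.fin (δ := δ) (w.map .terminal) (M.map (fun t => .nonterminal (.m t))) t
      (by simp) (by simp) (by simp)
    simp only [List.append_assoc, List.cons_append, List.nil_append] at this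
    exact ReflTransGen.head this ih

theorem complete {q : Q} {a : List G} {c : List T} (h : Gen δ (some q) a a c) :
    ReflTransGen (HS δ) [.nonterminal (.st q)] (c.map .terminal) := by
  obtain ⟨X, P, h1, h2, h3, h4⟩ := gen_run h
  have h5 := clear (δ := δ) P X [] (fun t => by rw [h2, h3])
  have h6 := h4 [] []
  rw [h1] at h5
  simp only [List.append_nil, List.nil_append] at h5 h6
  exact h6.trans (h5.trans (erase _ _))

end Pool.Agent.H.MP_fc8a61_lc
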