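import Pool.Agent.H.MP_fc8a61_lc.A

set_option autoImplicit false

namespace Pool.Agent.H.MP_fc8a61_lc

open Relation

variable {T Q G : Type}

/-- Zone of a symbol. -/
def rk : Symbol T (NT Q G) → ℕ
  | .terminal _ => 0
  | .nonterminal (.st _) => 1
  | .nonterminal (.l _ _) => 0
  | .nonterminal (.a _ _) => 0
  | .nonterminal (.r _ _) => 2
  | .nonterminal (.m _) => 2

/-- Left letters of a track. -/
def lf (t : Bool) : Symbol T (NT Q G) → Option G
  | .nonterminal (.l t' a) => pk t (t', a)
  | .nonterminal (.a t' a) => pk t (t', a)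
  | _ => none

/-- Right letters of a track. -/
def rt (t : Bool) : Symbol T (NT Q G) → Option G
  | .nonterminal (.r t' a) => pk t (t', a)
  | _ => none

/-- Terminal letters. -/
def tm : Symbol T (NT Q G) → Option T
  | .terminal a => some a
  | _ => none

/-- State letters. -/
def sq : Symbol T (NT Q G) → Option Q
  | .nonterminal (.st q) => some q
  | _ => none

/-- Allowed order of symbols. -/
def Rel (s1 s2 : Symbol T (NT Q G)) : Prop :=
  rk s1 ≤ rk s2 ∧ rk s1 + rk s2 ≠ 2 * 1 + (rk s2 - rk s1) * 5 ∧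
    ∀ t a, s2 = .nonterminal (.a t a) → lf t s1 = none

/-- No marker left of an unprocessed right symbol. -/
def Mr (s1 s2 : Symbol T (NT Q G)) : Prop := ∀ t, s1 = .nonterminal (.m t) → rt t s2 = none

theorem lf_e (t : Bool) : (∀ a, lf t (.terminal a : Symbol T (NT Q G)) = none) ∧
    (∀ a, lf t (.nonterminal (.st a) : Symbol T (NT Q G)) = none) ∧
    (∀ s a, lf t (.nonterminal (.l s a) : Symbol T (NT Q G)) = pk t (s, a)) ∧
    (∀ s a, lf t (.nonterminal (.a s a) : Symbol T (NT Q G)) = pk t (s, a)) ∧
    (∀ s a, lf t (.nonterminal (.r s a) : Symbol T (NT Q G)) = none) ∧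
    (∀ s, lf t (.nonterminal (.m s) : Symbol T (NT Q G)) = none) :=
  ⟨fun _ => rfl, fun _ => rfl, fun _ _ => rfl, fun _ _ => rfl, fun _ _ => rfl, fun _ => rfl⟩

theorem rt_e (t : Bool) : (∀ a, rt t (.terminal a : Symbol T (NT Q G)) = none) ∧
    (∀ a, rt t (.nonterminal (.st a) : Symbol T (NT Q G)) = none) ∧
    (∀ s a, rt t (.nonterminal (.l s a) : Symbol T (NT Q G)) = none) ∧
    (∀ s a, rt t (.nonterminal (.a s a) : Symbol T (NT Q G)) = none) ∧
    (∀ s a, rt t (.nonterminal (.r s a) : Symbol T (NT Q G)) = pk t (s, a)) ∧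
    (∀ s, rt t (.nonterminal (.m s) : Symbol T (NT Q G)) = none) :=
  ⟨fun _ => rfl, fun _ => rfl, fun _ _ => rfl, fun _ _ => rfl, fun _ _ => rfl, fun _ => rfl⟩

theorem rk0 (s : Symbol T (NT Q G)) (h : rk s = 0) : sq s = none ∧ ∀ t, rt t s = none := by
  rcases s with s | s | s | s | s | s <;> simp_all [rk, sq, rt]

theorem rk2 (s : Symbol T (NT Q G)) (h : rk s = 2) :
    sq s = none ∧ tm s = none ∧ (∀ t, lf t s = none) ∧ ∀ t a, s ≠ .nonterminal (.a t a) := by
  rcases s with s | s | s | s | s | s <;> simp_all [rk, sq, tm, lf]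

theorem rk_le (s : Symbol T (NT Q G)) : rk s ≤ 2 := by
  rcases s with s | s | s | s | s | s <;> simp [rk]

theorem lf_none {u : List (Symbol T (NT Q G))} {t : Bool} (h1 : ∀ b, .nonterminal (.l t b) ∉ u)
    (h2 : ∀ b, .nonterminal (.a t b) ∉ u) : ∀ s ∈ u, lf t s = none := by
  intro s hs
  rcases s with s | s | ⟨t', s⟩ | ⟨t', s⟩ | s | s <;> simp only [lf, pk]
  · split_ifs with h
    · exact absurd hs (h ▸ h1 s)
    · rfl
  · split_ifs with h
    · exact absurd hs (h ▸ h2 s)
    · rfl

theorem xl_facts (s : T ⊕ Bool × G) : rk (xl s : Symbol T (NT Q G)) = 0 ∧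
    (∀ t, lf t (xl s : Symbol T (NT Q G)) = pj t s) ∧ tm (xl s : Symbol T (NT Q G)) = s.getLeft? ∧
    ∀ t a, (xl s : Symbol T (NT Q G)) ≠ .nonterminal (.a t a) := by
  rcases s with s | s <;> simp [xl, rk, lf, tm, pj]

theorem emit_lf (x y : List G) (o : List T) (q : Option Q) (t : Bool) :
    (emit x y o q).filterMap (lf t) = cond t y x := by
  rw [← eX_pj x y o t]
  simp only [emit, List.filterMap_append, List.filterMap_map, Function.comp_def, (xl_facts _).2.1,
    List.filterMap_reverse]
  simp [lf, ss, rr]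

theorem emit_tm (x y : List G) (o : List T) (q : Option Q) :
    (emit x y o q).filterMap tm = o := by
  conv_rhs => rw [← eX_left x y o]
  simp only [emit, List.filterMap_append, List.filterMap_map, Function.comp_def, (xl_facts _).2.2.1,
    List.filterMap_reverse]
  simp [tm, ss, rr]

theorem emit_sq (x y : List G) (o : List T) (q : Option Q) :
    (emit x y o q).filterMap sq = q.toList := by
  simp only [emit, List.filterMap_append, List.filterMap_map, Function.comp_def,
    (rk0 _ (xl_facts _).1).1, List.filterMap_reverse]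
  simp [sq, ss, rr]

theorem emit_rt (x y : List G) (o : List T) (q : Option Q) (t : Bool) :
    (emit x y o q).filterMap (rt t) = (cond t x y).reverse := by
  rw [← eP_pk x y t]
  simp only [emit, List.filterMap_append, List.filterMap_map, Function.comp_def,
    (rk0 _ (xl_facts _).1).2, List.filterMap_reverse]
  simp [rt, ss, rr]

theorem emit_na (x y : List G) (o : List T) (q : Option Q) :
    ∀ s ∈ emit x y o q, ∀ t a, s ≠ .nonterminal (.a t a) := by
  intro s hs t a
  simp only [emit, List.mem_append, List.mem_map, List.mem_reverse] at hs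
  rcases hs with (⟨s, -, rfl⟩ | ⟨s, -, rfl⟩) | ⟨s, -, rfl⟩
  · exact (xl_facts s).2.2.2 t a
  · simp [ss]
  · simp [rr]

theorem emit_pw (x y : List G) (o : List T) (q : Option Q) : (emit x y o q).Pairwise Rel := by
  have h : (emit x y o q).Pairwise
      (fun s1 s2 => rk s1 ≤ rk s2 ∧ rk s1 + rk s2 ≠ 2 * 1 + (rk s2 - rk s1) * 5) := by
    simp only [emit, List.pairwise_append, List.pairwise_map, List.pairwise_reverse,
      List.mem_append, List.mem_map, List.mem_reverse, (xl_facts _).1]
    refine ⟨⟨List.pairwise_of_forall (by simp), ?_, ?_⟩, List.pairwise_of_forall (by simp [rr, rk]), ?_⟩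
    · cases q <;> simp
    · rintro _ ⟨s, -, rfl⟩ _ ⟨s', -, rfl⟩
      rw [(xl_facts _).1]; simp [ss, rk]
    · rintro _ (⟨s, -, rfl⟩ | ⟨s, -, rfl⟩) _ ⟨s', -, rfl⟩
      · rw [(xl_facts _).1]; simp [rr, rk]
      · simp [ss, rr, rk]
  exact h.imp_of_mem (fun _ h2 h3 => ⟨h3.1, h3.2, fun t a h4 => absurd h4 (emit_na _ _ _ _ _ h2 t a)⟩)

variable {δ : Q → List G → List G → List T → Option Q → Prop}

theorem pw_repl {R : Symbol T (NT Q G) → Symbol T (NT Q G) → Prop}
    {u v x y : List (Symbol T (NT Q G))} (h : (u ++ x ++ v).Pairwise R) (hy : y.Pairwise R)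
    (h1 : ∀ s ∈ u, ∀ s' ∈ y, R s s') (h2 : ∀ s ∈ y, ∀ s' ∈ v, R s s') :
    (u ++ y ++ v).Pairwise R := by
  simp only [List.pairwise_append, List.mem_append] at h ⊢
  refine ⟨⟨h.1.1, hy, h1⟩, h.2.1, ?_⟩
  rintro s (hs | hs) s' hs'
  · exact h.2.2 s (Or.inl hs) s' hs'
  · exact h2 s hs s' hs'

theorem pw_get {R : Symbol T (NT Q G) → Symbol T (NT Q G) → Prop}
    {u v : List (Symbol T (NT Q G))} {A : Symbol T (NT Q G)} (h : (u ++ [A] ++ v).Pairwise R) :
    (∀ s ∈ u, R s A) ∧ ∀ s ∈ v, R A s := by
  simp only [List.pairwise_append, List.mem_append] at h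
  exact ⟨fun s hs => h.1.2.2 s hs A (by simp), fun s hs => h.2.2 A (by simp) s hs⟩

theorem st_zone {u v : List (Symbol T (NT Q G))} {q : Q}
    (h : (u ++ [Symbol.nonterminal (NT.st q)] ++ v).Pairwise Rel) :
    (∀ s ∈ u, rk s = 0) ∧ ∀ s ∈ v, rk s = 2 := by
  obtain ⟨h1, h2⟩ := pw_get h
  refine ⟨fun s hs => ?_, fun s hs => ?_⟩
  · obtain ⟨h3, h4, -⟩ := h1 s hs
    have : rk (.nonterminal (.st q) : Symbol T (NT Q G)) = 1 := rfl
    omega
  · obtain ⟨h3, h4, -⟩ := h2 s hs
    have : rk (.nonterminal (.st q) : Symbol T (NT Q G)) = 1 := rfl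
    have := rk_le s
    omega

theorem inv_step {α β : List (Symbol T (NT Q G))} (h : HS δ α β) (hα : α.Pairwise Rel) :
    β.Pairwise Rel := by
  cases h with
  | @gen u v q x y o q' h =>
    obtain ⟨h1, h2⟩ := st_zone hα
    refine pw_repl hα (emit_pw _ _ _ _) (fun s hs s' hs' => ?_) (fun s hs s' hs' => ?_)
    · have := h1 s hs
      have := rk_le s'
      exact ⟨by omega, by omega, fun t a h4 => absurd h4 (emit_na _ _ _ _ _ hs' t a)⟩
    · have := h2 s' hs'
      have := rk_le s
      exact ⟨by omega, by omega, fun t a h4 => absurd h4 ((rk2 _ (h2 s' hs')).2.2.2 t a)⟩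
  | act u v t a h1 h2 =>
    obtain ⟨h3, h4⟩ := pw_get hα
    refine pw_repl hα (by simp) (fun s hs s' hs' => ?_) (fun s hs s' hs' => ?_)
    · rw [List.mem_singleton.1 hs']
      refine ⟨(h3 s hs).1, (h3 s hs).2.1, fun t' a' h5 => ?_⟩
      simp only [Symbol.nonterminal.injEq, NT.a.injEq] at h5
      exact h5.1 ▸ lf_none h1 h2 s hs
    · rw [List.mem_singleton.1 hs]
      exact h4 s' hs'
  | del u v t a => exact pw_repl hα (by simp) (by simp) (by simp)
  | chk u v t a h1 h2 =>
    obtain ⟨h3, h4⟩ := pw_get hα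
    refine pw_repl hα (by simp) (fun s hs s' hs' => ?_) (fun s hs s' hs' => ?_)
    · rw [List.mem_singleton.1 hs']
      exact ⟨(h3 s hs).1, (h3 s hs).2.1, by simp⟩
    · rw [List.mem_singleton.1 hs]
      exact h4 s' hs'
  | fin u v t h1 h2 h3 => exact pw_repl hα (by simp) (by simp) (by simp)

/-- Backward invariant. -/
def Good (δ : Q → List G → List G → List T → Option Q → Prop) (x : List (Symbol T (NT Q G)))
    (w : List T) : Prop :=
  ∃ q a b c, x.filterMap sq = Option.toList q ∧ Gen δ q a b c ∧ w = x.filterMap tm ++ c ∧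
    (∀ t, WE ((x.filterMap (rt t)).reverse ++ cond t a b) (x.filterMap (lf t) ++ cond t b a)) ∧
    x.Pairwise Mr

theorem good_step {α β : List (Symbol T (NT Q G))} {w : List T} (h : HS δ α β)
    (hα : α.Pairwise Rel) (hβ : Good δ β w) : Good δ α w := by
  obtain ⟨q1, a1, b1, c1, g1, g2, g3, g4, g5⟩ := hβ
  cases h with
  | @gen u v q x y o q' h =>
    obtain ⟨h1, h2⟩ := st_zone hα
    have e1 : u.filterMap sq = [] := List.filterMap_eq_nil_iff.2 (fun s hs => (rk0 s (h1 s hs)).1)
    have e2 : v.filterMap sq = [] := List.filterMap_eq_nil_iff.2 (fun s hs => (rk2 s (h2 s hs)).1)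
    have e3 : v.filterMap tm = [] := List.filterMap_eq_nil_iff.2 (fun s hs => (rk2 s (h2 s hs)).2.1)
    have e4 : ∀ t, v.filterMap (lf t) = [] := fun t =>
      List.filterMap_eq_nil_iff.2 (fun s hs => (rk2 s (h2 s hs)).2.2.1 t)
    have e5 : ∀ t, u.filterMap (rt t) = [] := fun t =>
      List.filterMap_eq_nil_iff.2 (fun s hs => (rk0 s (h1 s hs)).2 t)
    simp only [List.filterMap_append, emit_sq, emit_tm, emit_lf, emit_rt, e1, e2, e3, e4, e5,
      List.nil_append, List.append_nil] at g1 g3 g4
    have : q' = q1 := by cases q' <;> cases q1 <;> simp_all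
    subst this
    refine ⟨some q, _, _, _, ?_, Gen.step h g2, ?_, fun t => ?_,
      pw_repl g5 (by simp) (fun s hs s' hs' => ?_) (fun s hs s' hs' => ?_)⟩
    · simp only [List.filterMap_append, e1, e2]; rfl
    · simp only [List.filterMap_append, e3, g3]; simp [tm]
    · have := g4 t
      cases t <;> simpa [e4, e5, lf_e, rt_e, List.filterMap_cons] using this
    · rw [List.mem_singleton.1 hs']
      intro t _; rfl
    · rw [List.mem_singleton.1 hs]
      intro t ht; simp at ht
  | act u v t a h1 h2 =>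
    refine ⟨q1, a1, b1, c1, by simpa [sq] using g1, g2, by simpa [tm] using g3, fun t' => ?_,
      pw_repl g5 (by simp) (fun s hs s' hs' => ?_) (fun s hs s' hs' => ?_)⟩
    · simpa [lf, rt, List.filterMap_cons] using g4 t'
    · rw [List.mem_singleton.1 hs']
      intro t _; rfl
    · rw [List.mem_singleton.1 hs]
      intro t ht; simp at ht
  | del u v t a =>
    refine ⟨q1, a1, b1, c1, by simpa [sq] using g1, g2, by simpa [tm] using g3, fun t' => ?_,
      pw_repl g5 (by simp) (fun s hs s' hs' => ?_) (fun s hs s' hs' => ?_)⟩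
    · have e1 : u.filterMap (lf t) = [] :=
        List.filterMap_eq_nil_iff.2 (fun s hs => ((pw_get hα).1 s hs).2.2 t a rfl)
      by_cases ht : t = t'
      · subst ht
        simpa [lf_e, rt_e, pk, e1, List.filterMap_cons] using (g4 t).skip a
      · simpa [lf, rt, pk, ht] using g4 t'
    · rw [List.mem_singleton.1 hs']
      intro t _; rfl
    · rw [List.mem_singleton.1 hs]
      intro t ht; simp at ht
  | chk u v t a h1 h2 =>
    refine ⟨q1, a1, b1, c1, by simpa [sq] using g1, g2, by simpa [tm] using g3, fun t' => ?_,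
      pw_repl g5 (by simp) (fun s hs s' hs' => ?_) (fun s hs s' hs' => ?_)⟩
    · by_cases ht : t = t'
      · subst ht
        have e1 : v.filterMap (rt t) = [] :=
          List.filterMap_eq_nil_iff.2 (fun s hs => (pw_get g5).2 s hs t rfl)
        obtain ⟨u1, u2, rfl⟩ := List.append_of_mem h1
        have h3 : (u1 ++ [Symbol.nonterminal (NT.a t a)] ++
          (u2 ++ [Symbol.nonterminal (NT.r t a)] ++ v)).Pairwise Rel := by simpa using hα
        have e2 : u1.filterMap (lf t) = [] :=
          List.filterMap_eq_nil_iff.2 (fun s hs => ((pw_get h3).1 s hs).2.2 t a rfl)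
        have h4 := g4 t
        simp only [List.filterMap_append, List.filterMap_cons, lf_e, rt_e, pk, e1, e2, if_true,
          List.nil_append, List.append_nil, List.filterMap_nil, List.reverse_append,
          List.cons_append, List.reverse_cons, List.reverse_nil] at h4 ⊢
        exact h4.use a
      · simpa [lf, rt, pk, ht] using g4 t'
    · rw [List.mem_singleton.1 hs']
      intro t' ht'
      have : t ≠ t' := fun h => h2 (h ▸ ht' ▸ hs)
      simp [rt, pk, this]
    · rw [List.mem_singleton.1 hs]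
      intro t ht; simp at ht
  | fin u v t h1 h2 h3 =>
    refine ⟨q1, a1, b1, c1, by simpa [sq] using g1, g2, by simpa [tm] using g3, fun t' => ?_,
      pw_repl g5 (by simp) (fun s hs s' hs' => ?_) (fun s hs s' hs' => ?_)⟩
    · simpa [lf, rt] using g4 t'
    · rw [List.mem_singleton.1 hs']
      intro t _; rfl
    · rw [List.mem_singleton.1 hs]
      intro t' ht
      simp only [Symbol.nonterminal.injEq, NT.m.injEq] at ht
      subst ht
      have h4 : ∀ s ∈ v, rk s = 2 := fun s hs => le_antisymm (rk_le s) ((pw_get hα).2 s hs).1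
      have e1 : u.filterMap sq = [] := List.filterMap_eq_nil_iff.2 (fun s hs => by
        rcases s with s | s | s | s | s | s <;> first | rfl | exact absurd hs (h3 s))
      have e2 : v.filterMap sq = [] := List.filterMap_eq_nil_iff.2 (fun s hs => (rk2 s (h4 s hs)).1)
      have e3 : u.filterMap (lf t) = [] := List.filterMap_eq_nil_iff.2 (lf_none h1 h2)
      have e4 : v.filterMap (lf t) = [] :=
        List.filterMap_eq_nil_iff.2 (fun s hs => (rk2 s (h4 s hs)).2.2.1 t)
      have e5 : q1 = none := by
        cases q1 with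
        | none => rfl
        | some q => simp [e1, e2] at g1
      subst e5
      cases g2
      have h5 := g4 t
      simp only [List.filterMap_append, e3, e4, List.filterMap_nil, List.append_nil,
        Bool.cond_self] at h5
      have h6 := h5.eq_nil
      simp only [List.reverse_eq_nil_iff, List.append_eq_nil_iff] at h6
      exact List.filterMap_eq_nil_iff.1 h6.2 s' hs'

theorem sound {q : Q} {w : List T}
    (h : ReflTransGen (HS δ) [.nonterminal (.st q)] (w.map .terminal)) :
    ∃ a b, Gen δ (some q) a b w ∧ WE a b ∧ WE b a := by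
  have key : ∀ x, ReflTransGen (HS δ) x (w.map .terminal) → x.Pairwise Rel → Good δ x w := by
    intro x hx
    induction hx using ReflTransGen.head_induction_on with
    | refl =>
      intro _
      refine ⟨none, [], [], [], by simp [List.filterMap_map, sq], Gen.stop,
        by simp [List.filterMap_map, tm, Function.comp_def], fun t => ?_, ?_⟩
      · have : (w.map (.terminal : T → Symbol T (NT Q G))).filterMap (rt t) = [] := by
          simp [List.filterMap_map, rt]
        rw [this, Bool.cond_self]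
        exact WE.nil _
      · rw [List.pairwise_map]
        exact List.pairwise_of_forall (fun _ _ t ht => by simp at ht)
    | head h1 _ ih => exact fun h2 => good_step h1 h2 (ih (inv_step h1 h2))
  obtain ⟨q1, a, b, c, g1, g2, g3, g4, -⟩ := key _ h (by simp)
  have : q1 = some q := by cases q1 <;> simp_all [sq]
  subst this
  have : c = w := by simpa [tm] using g3.symm
  subst this
  exact ⟨a, b, g2, by simpa [lf, rt] using g4 true, by simpa [lf, rt] using g4 false⟩

end Pool.Agent.H.MP_fc8a61_lc
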