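import Pool.Agent.H.MP_fc8a61_lc.B

set_option autoImplicit false

namespace Pool.Agent.H.MP_fc8a61_lc

open Relation

/-- One step of a left random context grammar. -/
def LS {T N : Type} (P : Finset (N × List (Symbol T N) × Finset N × Finset N))
    (α β : List (Symbol T N)) : Prop :=
  ∃ (u v : List (Symbol T N)) (A : N) (x : List (Symbol T N)) (U W : Finset N),
    α = u ++ [Symbol.nonterminal A] ++ v ∧ β = u ++ x ++ v ∧ (A, x, U, W) ∈ P ∧
      (∀ B ∈ U, Symbol.nonterminal B ∈ u) ∧ ∀ B ∈ W, Symbol.nonterminal B ∉ u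

variable {T Q G : Type}

/-- Rules of the simulating grammar. -/
inductive Rl (δ : Q → List G → List G → List T → Option Q → Prop) :
    NT Q G → List (Symbol T (NT Q G)) → Set (NT Q G) → Set (NT Q G) → Prop
  | gen {q x y o q'} : δ q x y o q' → Rl δ (.st q) (emit x y o q') ∅ ∅
  | act (t a) : Rl δ (.l t a) [.nonterminal (.a t a)] ∅ {B | ∃ b, B = .l t b ∨ B = .a t b}
  | del (t a) : Rl δ (.a t a) [] ∅ ∅
  | chk (t a) : Rl δ (.r t a) [.nonterminal (.m t)] {.a t a} {.m t}
  | fin (t) : Rl δ (.m t) [] ∅ {B | (∃ b, B = .l t b ∨ B = .a t b) ∨ ∃ q, B = .st q}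

theorem exists_rules [Finite T] [Finite Q] [Finite G]
    (δ : Q → List G → List G → List T → Option Q → Prop) (K : ℕ)
    (hK : ∀ q x y o q', δ q x y o q' → x.length + y.length + o.length ≤ K) :
    ∃ P : Finset (NT Q G × List (Symbol T (NT Q G)) × Finset (NT Q G) × Finset (NT Q G)),
      ∀ α β, LS P α β ↔ HS δ α β := by
  have hfin : {r : NT Q G × List (Symbol T (NT Q G)) × Finset (NT Q G) × Finset (NT Q G) |
      Rl δ r.1 r.2.1 r.2.2.1 r.2.2.2}.Finite := by
    refine (Set.finite_univ.prod ((List.finite_length_le _ (2 * K + 1)).prod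
      Set.finite_univ)).subset ?_
    rintro ⟨A, x, U, W⟩ h
    refine ⟨trivial, ?_, trivial⟩
    simp only [Set.mem_setOf_eq] at h ⊢
    generalize (U : Set (NT Q G)) = U' at h
    generalize (W : Set (NT Q G)) = W' at h
    cases h with
    | @gen q x y o q' h =>
      have := hK _ _ _ _ _ h
      cases q' <;> simp [emit, eX, eP] <;> omega
    | act => simp
    | del => simp
    | chk => simp
    | fin => simp
  refine ⟨hfin.toFinset, fun α β => ⟨?_, ?_⟩⟩
  · rintro ⟨u, v, A, x, U, W, rfl, rfl, h, h1, h2⟩
    simp only [Set.Finite.mem_toFinset, Set.mem_setOf_eq] at h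
    change ∀ B ∈ (U : Set (NT Q G)), _ at h1
    change ∀ B ∈ (W : Set (NT Q G)), _ at h2
    generalize (U : Set (NT Q G)) = U' at h h1
    generalize (W : Set (NT Q G)) = W' at h h2
    cases h with
    | gen h => exact HS.gen u v h
    | act t a => exact HS.act u v t a (fun b => h2 _ ⟨b, Or.inl rfl⟩) (fun b => h2 _ ⟨b, Or.inr rfl⟩)
    | del t a => exact HS.del u v t a
    | chk t a => exact HS.chk u v t a (h1 _ rfl) (h2 _ rfl)
    | fin t =>
      exact HS.fin u v t (fun b => h2 _ (Or.inl ⟨b, Or.inl rfl⟩))
        (fun b => h2 _ (Or.inl ⟨b, Or.inr rfl⟩)) (fun q => h2 _ (Or.inr ⟨q, rfl⟩))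
  · have mk : ∀ u v A x (U W : Set (NT Q G)), Rl δ A x U W → (∀ B ∈ U, Symbol.nonterminal B ∈ u) →
        (∀ B ∈ W, Symbol.nonterminal B ∉ u) →
        LS hfin.toFinset (u ++ [Symbol.nonterminal A] ++ v) (u ++ x ++ v) := by
      intro u v A x U W h h1 h2
      exact ⟨u, v, A, x, (Set.toFinite U).toFinset, (Set.toFinite W).toFinset, rfl, rfl,
        by simpa using h, by simpa using h1, by simpa using h2⟩
    intro h
    cases h with
    | gen u v h => exact mk _ _ _ _ _ _ (Rl.gen h) (by simp) (by simp)
    | act u v t a h1 h2 =>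
      refine mk _ _ _ _ _ _ (Rl.act t a) (by simp) ?_
      rintro _ ⟨b, rfl | rfl⟩
      exacts [h1 b, h2 b]
    | del u v t a => exact mk _ _ _ _ _ _ (Rl.del t a) (by simp) (by simp)
    | chk u v t a h1 h2 => exact mk _ _ _ _ _ _ (Rl.chk t a) (by simpa using h1) (by simpa using h2)
    | fin u v t h1 h2 h3 =>
      refine mk _ _ _ _ _ _ (Rl.fin t) (by simp) ?_
      rintro _ (⟨b, rfl | rfl⟩ | ⟨q, rfl⟩)
      exacts [h1 b, h2 b, h3 q]

/-- Separators after each letter. -/
def dbl (x : List G) : List (Option G) := x.flatMap (fun a => [some a, none])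

theorem dbl_chain (x : List G) : (dbl x).IsChain (· ≠ ·) := by
  induction x with
  | nil => simp [dbl]
  | cons a x ih =>
    cases x with
    | nil => simp [dbl]
    | cons b x => simpa [dbl] using ih

theorem dbl_inj {x y : List G} (h : dbl x = dbl y) : x = y := by
  have : ∀ z : List G, (dbl z).filterMap id = z := by
    intro z
    induction z with
    | nil => rfl
    | cons a z ih => simpa [dbl] using ih
  rw [← this x, h, this]

theorem layer1 [Finite T] [Finite Q] [Finite G]
    (δ : Q → List G → List G → List T → Option Q → Prop) (K : ℕ)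
    (hK : ∀ q x y o q', δ q x y o q' → x.length + y.length + o.length ≤ K) (q0 : Q) :
    ∃ (N : Type) (_ : Finite N) (S : N) (P : Finset (N × List (Symbol T N) × Finset N × Finset N)),
      ∀ w : List T, ReflTransGen (LS P) [.nonterminal S] (w.map .terminal) ↔
        ∃ a, Gen δ (some q0) a a w := by
  let δ' : Q → List (Option G) → List (Option G) → List T → Option Q → Prop :=
    fun q x y o q' => ∃ x' y', δ q x' y' o q' ∧ x = dbl x' ∧ y = dbl y'
  obtain ⟨P, hP⟩ := exists_rules δ' (2 * K) (by
    rintro q _ _ o q' ⟨x, y, h, rfl, rfl⟩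
    have := hK _ _ _ _ _ h
    simp [dbl, List.length_flatMap]
    omega)
  have hP' : LS P = HS δ' := by
    funext α β
    exact propext (hP α β)
  refine ⟨_, inferInstance, .st q0, P, fun w => ?_⟩
  rw [hP']
  constructor
  · intro h
    obtain ⟨a, b, h1, h2, h3⟩ := sound h
    have key : ∀ q a b c, Gen δ' q a b c → ∃ a' b', Gen δ q a' b' c ∧ a = dbl a' ∧ b = dbl b' := by
      intro q a b c h
      induction h with
      | stop => exact ⟨[], [], Gen.stop, rfl, rfl⟩
      | step h _ ih =>
        obtain ⟨x, y, h, rfl, rfl⟩ := h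
        obtain ⟨a', b', h4, rfl, rfl⟩ := ih
        exact ⟨_, _, Gen.step h h4, by simp [dbl], by simp [dbl]⟩
    obtain ⟨a', b', h4, rfl, rfl⟩ := key _ _ _ _ h1
    have := dbl_inj ((h2.sub (dbl_chain _)).antisymm (h3.sub (dbl_chain _)))
    subst this
    exact ⟨_, h4⟩
  · rintro ⟨a, h⟩
    have key : ∀ q a b c, Gen δ q a b c → Gen δ' q (dbl a) (dbl b) c := by
      intro q a b c h
      induction h with
      | stop => exact Gen.stop
      | step h _ ih =>
        simp only [dbl, List.flatMap_append]
        exact Gen.step ⟨_, _, h, rfl, rfl⟩ ih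
    exact complete (key _ _ _ _ h)

/-- States of the history generator. -/
inductive St (I V : Type) : Type
  | start : St I V
  | blk : St I V
  | fin : St I V
  | pre (i : I) (X : Set V) : St I V
  | post (i : I) (X : Set V) : St I V

instance {I V : Type} [Finite I] [Finite V] : Finite (St I V) :=
  Finite.of_surjective (fun x : Option (Option (Option ((I × Set V) ⊕ (I × Set V)))) =>
    match x with
    | none => St.start
    | some none => St.blk
    | some (some none) => St.fin
    | some (some (some (.inl p))) => St.pre p.1 p.2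
    | some (some (some (.inr p))) => St.post p.1 p.2) (fun x => by
      cases x with
      | start => exact ⟨none, rfl⟩
      | blk => exact ⟨some none, rfl⟩
      | fin => exact ⟨some (some none), rfl⟩
      | pre i X => exact ⟨some (some (some (.inl (i, X)))), rfl⟩
      | post i X => exact ⟨some (some (some (.inr (i, X)))), rfl⟩)

variable {I V : Type} (τ : T → V) (s : List V) (lhs rhs : I → List V) (okL okR : I → Set V → Prop)

/-- Rewriting with conditions on the alphabets of both contexts. -/
def CS (x y : List V) : Prop :=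
  ∃ i u v, x = u ++ lhs i ++ v ∧ y = u ++ rhs i ++ v ∧ okL i {a | a ∈ u} ∧ okR i {a | a ∈ v}

/-- Transitions of the history generator. -/
inductive Tr : St I V → List (Option V) → List (Option V) → List T → Option (St I V) → Prop
  | start : Tr .start [] (s.map some ++ [none]) [] (some .blk)
  | choose (i) : Tr .blk [] [] [] (some (.pre i ∅))
  | cp1 (i X a) : Tr (.pre i X) [some a] [some a] [] (some (.pre i (X ∪ {a})))
  | app (i X) : okL i X →
      Tr (.pre i X) ((lhs i).map some) ((rhs i).map some) [] (some (.post i ∅))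
  | cp2 (i X a) : Tr (.post i X) [some a] [some a] [] (some (.post i (X ∪ {a})))
  | close (i X) : okR i X → Tr (.post i X) [none] [none] [] (some .blk)
  | last : Tr .blk [] [] [] (some .fin)
  | out (a) : Tr .fin [some (τ a)] [] [a] (some .fin)
  | stop : Tr .fin [none] [] [] none

theorem sep_inj {x y : List V} {p q : List (Option V)}
    (h : x.map some ++ none :: p = y.map some ++ none :: q) : x = y ∧ p = q := by
  induction x generalizing y with
  | nil => cases y <;> simp_all
  | cons a x ih =>
    cases y with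
    | nil => simp at h
    | cons b y =>
      simp only [List.map_cons, List.cons_append, List.cons.injEq, Option.some.injEq] at h
      exact ⟨by rw [h.1, (ih h.2).1], (ih h.2).2⟩

/-- Meaning of the block state. -/
def PB (a b : List (Option V)) (c : List T) : Prop :=
  ∀ x : List V, a = x.map some ++ none :: b → ReflTransGen (CS lhs rhs okL okR) x (c.map τ)

/-- Meaning of all states. -/
def PS : Option (St I V) → List (Option V) → List (Option V) → List T → Prop
  | none, a, b, c => a = [] ∧ b = [] ∧ c = []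
  | some .fin, a, b, c => a = (c.map τ).map some ++ [none] ∧ b = []
  | some .blk, a, b, c => PB τ lhs rhs okL okR a b c
  | some (.post i Y), a, b, c => ∃ (v : List V) (a' b' : List (Option V)),
      a = v.map some ++ none :: a' ∧ b = v.map some ++ none :: b' ∧ okR i (Y ∪ {z | z ∈ v}) ∧
        PB τ lhs rhs okL okR a' b' c
  | some (.pre i X), a, b, c => ∃ (u v : List V) (a' b' : List (Option V)),
      a = (u ++ lhs i ++ v).map some ++ none :: a' ∧ b = (u ++ rhs i ++ v).map some ++ none :: b' ∧
        okL i (X ∪ {z | z ∈ u}) ∧ okR i {z | z ∈ v} ∧ PB τ lhs rhs okL okR a' b' c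
  | some .start, a, b, c => ∃ b', b = s.map some ++ none :: b' ∧ PB τ lhs rhs okL okR a b' c

theorem un_cons (X : Set V) (a : V) (u : List V) :
    X ∪ {a} ∪ {z | z ∈ u} = X ∪ {z | z ∈ a :: u} := by
  ext z
  simp only [Set.mem_union, Set.mem_singleton_iff, Set.mem_setOf_eq, List.mem_cons, or_assoc]

theorem ps_of_gen {q a b c} (h : Gen (Tr τ s lhs rhs okL okR) q a b c) :
    PS τ s lhs rhs okL okR q a b c := by
  induction h with
  | stop => exact ⟨rfl, rfl, rfl⟩
  | @step q x y o q' a b c h _ ih =>
    cases h with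
    | start => exact ⟨b, by simp, ih⟩
    | choose i =>
      obtain ⟨u, v, a', b', h1, h2, h3, h4, h5⟩ := ih
      intro x hx
      obtain ⟨rfl, h6⟩ := sep_inj (h1.symm.trans hx)
      exact ReflTransGen.head ⟨i, u, v, rfl, rfl, by simpa using h3, h4⟩ (h5 _ (h6.trans h2))
    | cp1 i X z =>
      obtain ⟨u, v, a', b', h1, h2, h3, h4, h5⟩ := ih
      exact ⟨z :: u, v, a', b', by simp [h1], by simp [h2], un_cons X z u ▸ h3, h4, h5⟩
    | app i X h =>
      obtain ⟨v, a', b', h1, h2, h3, h4⟩ := ih
      exact ⟨[], v, a', b', by simp [h1], by simp [h2], by simpa using h, by simpa using h3, h4⟩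
    | cp2 i X z =>
      obtain ⟨v, a', b', h1, h2, h3, h4⟩ := ih
      exact ⟨z :: v, a', b', by simp [h1], by simp [h2], un_cons X z v ▸ h3, h4⟩
    | close i X h => exact ⟨[], a, b, rfl, rfl, by simpa using h, ih⟩
    | last =>
      obtain ⟨h1, h2⟩ := ih
      intro x hx
      obtain ⟨rfl, -⟩ := sep_inj (h1.symm.trans hx)
      exact ReflTransGen.refl
    | out z =>
      obtain ⟨h1, h2⟩ := ih
      exact ⟨by simp [h1], by simp [h2]⟩
    | stop =>
      obtain ⟨rfl, rfl, rfl⟩ := ih
      exact ⟨rfl, rfl⟩

theorem run_pre (i : I) (u : List V) : ∀ X {a b c},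
    Gen (Tr τ s lhs rhs okL okR) (some (.pre i (X ∪ {z | z ∈ u}))) a b c →
    Gen (Tr τ s lhs rhs okL okR) (some (.pre i X)) (u.map some ++ a) (u.map some ++ b) c := by
  induction u with
  | nil => intro X a b c h; simpa using h
  | cons z u ih =>
    intro X a b c h
    rw [← un_cons] at h
    exact Gen.step (Tr.cp1 i X z) (ih _ h)

theorem run_post (i : I) (u : List V) : ∀ X {a b c},
    Gen (Tr τ s lhs rhs okL okR) (some (.post i (X ∪ {z | z ∈ u}))) a b c →
    Gen (Tr τ s lhs rhs okL okR) (some (.post i X)) (u.map some ++ a) (u.map some ++ b) c := by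
  induction u with
  | nil => intro X a b c h; simpa using h
  | cons z u ih =>
    intro X a b c h
    rw [← un_cons] at h
    exact Gen.step (Tr.cp2 i X z) (ih _ h)

theorem run_fin (c : List T) :
    Gen (Tr τ s lhs rhs okL okR) (some .fin) ((c.map τ).map some ++ [none]) [] c := by
  induction c with
  | nil => exact Gen.step Tr.stop Gen.stop
  | cons z c ih => exact Gen.step (Tr.out z) ih

theorem run_blk {x : List V} {c : List T} (h : ReflTransGen (CS lhs rhs okL okR) x (c.map τ)) :
    ∃ b, Gen (Tr τ s lhs rhs okL okR) (some .blk) (x.map some ++ none :: b) b c := by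
  induction h using ReflTransGen.head_induction_on with
  | refl => exact ⟨[], Gen.step Tr.last (run_fin τ s lhs rhs okL okR c)⟩
  | head h _ ih =>
    obtain ⟨i, u, v, rfl, rfl, h1, h2⟩ := h
    obtain ⟨b, hb⟩ := ih
    have h3 := Gen.step (Tr.choose i) (run_pre τ s lhs rhs okL okR i u ∅
      (Gen.step (Tr.app i _ (by simpa using h1)) (run_post τ s lhs rhs okL okR i v ∅
        (Gen.step (Tr.close i _ (by simpa using h2)) hb))))
    exact ⟨(u ++ rhs i ++ v).map some ++ none :: b, by simpa using h3⟩

theorem layer2 [Finite T] [Finite I] [Finite V] :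
    ∃ (N : Type) (_ : Finite N) (S : N) (P : Finset (N × List (Symbol T N) × Finset N × Finset N)),
      ∀ w : List T, ReflTransGen (LS P) [.nonterminal S] (w.map .terminal) ↔
        ReflTransGen (CS lhs rhs okL okR) s (w.map τ) := by
  obtain ⟨K, hK⟩ := (Set.finite_range (fun i => (lhs i).length + (rhs i).length)).bddAbove
  obtain ⟨N, hN, S, P, h⟩ := layer1 (Tr τ s lhs rhs okL okR) (K + s.length + 2) (by
    intro q x y o q' h
    cases h with
    | app i X h =>
      have := hK ⟨i, rfl⟩
      simp only [List.length_map, List.length_nil] at this ⊢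
      omega
    | _ => simp <;> omega) .start
  refine ⟨N, hN, S, P, fun w => (h w).trans ⟨?_, fun h1 => ?_⟩⟩
  · rintro ⟨a, h1⟩
    obtain ⟨b', h2, h3⟩ := ps_of_gen τ s lhs rhs okL okR h1
    exact h3 s h2
  · obtain ⟨b, hb⟩ := run_blk τ s lhs rhs okL okR h1
    exact ⟨s.map some ++ none :: b, by simpa using Gen.step Tr.start hb⟩

end Pool.Agent.H.MP_fc8a61_lc
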