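import Pool.Agent.H.MP_fc8a61_lc.C
import Pool.Agent.Lib.helper21.While

set_option autoImplicit false

namespace Pool.Agent.H.MP_fc8a61_lc

open Relation Function Pool.Agent.Lib.helper21.While

theorem lift_list {V : Type} {A : Set V} (l : List V) (h : ∀ a ∈ l, a ∈ A) :
    ∃ l' : List A, l'.map Subtype.val = l :=
  ⟨l.attachWith _ h, by simp⟩

theorem layer3 {T I V : Type} [Finite T] [Finite I] (τ : T → V) (s : List V)
    (lhs rhs : I → List V) (okL okR : I → Set V → Prop) :
    ∃ (N : Type) (_ : Finite N) (S : N) (P : Finset (N × List (Symbol T N) × Finset N × Finset N)),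
      ∀ w : List T, ReflTransGen (LS P) [.nonterminal S] (w.map .terminal) ↔
        ReflTransGen (CS lhs rhs okL okR) s (w.map τ) := by
  let A : Set V := ({a | a ∈ s} ∪ ⋃ i, {a | a ∈ lhs i ++ rhs i}) ∪ Set.range τ
  have hA : A.Finite := (s.finite_toSet.union
    (Set.finite_iUnion (fun i => List.finite_toSet _))).union (Set.finite_range τ)
  haveI := hA.to_subtype
  obtain ⟨s', hs⟩ := lift_list (A := A) s (fun a ha => Or.inl (Or.inl ha))
  choose l' hl using fun i => lift_list (A := A) (lhs i)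
    (fun a ha => Or.inl (Or.inr (Set.mem_iUnion.2 ⟨i, List.mem_append_left _ ha⟩)))
  choose r' hr using fun i => lift_list (A := A) (rhs i)
    (fun a ha => Or.inl (Or.inr (Set.mem_iUnion.2 ⟨i, List.mem_append_right _ ha⟩)))
  have him : ∀ u : List A, Subtype.val '' {a | a ∈ u} = {a | a ∈ u.map Subtype.val} := by
    intro u; ext a; simp
  obtain ⟨N, hN, S, P, h⟩ := layer2 (fun t => (⟨τ t, Or.inr ⟨t, rfl⟩⟩ : A)) s' l' r'
    (fun i X => okL i (Subtype.val '' X)) (fun i X => okR i (Subtype.val '' X))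
  refine ⟨N, hN, S, P, fun w => (h w).trans ⟨fun h1 => ?_, fun h1 => ?_⟩⟩
  · have key : ∀ y, ReflTransGen (CS l' r' (fun i X => okL i (Subtype.val '' X))
        (fun i X => okR i (Subtype.val '' X))) s' y →
        ReflTransGen (CS lhs rhs okL okR) s (y.map Subtype.val) := by
      intro y hy
      induction hy with
      | refl => rw [hs]
      | tail _ h2 ih =>
        obtain ⟨i, u, v, rfl, rfl, h2, h3⟩ := h2
        exact ih.tail ⟨i, u.map Subtype.val, v.map Subtype.val, by simp only [List.map_append, hl],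
          by simp only [List.map_append, hr], him u ▸ h2, him v ▸ h3⟩
    have := key _ h1
    rwa [List.map_map] at this
  · have key : ∀ y, ReflTransGen (CS lhs rhs okL okR) s y → ∃ y' : List A,
        y'.map Subtype.val = y ∧ ReflTransGen (CS l' r' (fun i X => okL i (Subtype.val '' X))
          (fun i X => okR i (Subtype.val '' X))) s' y' := by
      intro y hy
      induction hy with
      | refl => exact ⟨s', hs, ReflTransGen.refl⟩
      | tail _ h2 ih =>
        obtain ⟨i, u, v, rfl, rfl, h2, h3⟩ := h2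
        obtain ⟨y', h4, h5⟩ := ih
        obtain ⟨a, v', rfl, h6, rfl⟩ := List.map_eq_append_iff.1 h4
        obtain ⟨u', b, rfl, rfl, h7⟩ := List.map_eq_append_iff.1 h6
        have : b = l' i := List.map_injective_iff.2 Subtype.val_injective (h7.trans (hl i).symm)
        subst this
        exact ⟨u' ++ r' i ++ v', by simp only [List.map_append, hr], h5.tail
          ⟨i, u', v', rfl, rfl, by rwa [← him] at h2, by rwa [← him] at h3⟩⟩
    obtain ⟨y', h2, h3⟩ := key _ h1
    have : y' = w.map (fun t => (⟨τ t, Or.inr ⟨t, rfl⟩⟩ : A)) :=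
      List.map_injective_iff.2 Subtype.val_injective (by rw [h2, List.map_map]; rfl)
    exact this ▸ h3

/-- Letters of the simulation of counter programs. -/
inductive Lt (T : Type) : Type
  | o (a : T) : Lt T
  | t (j : ℕ) : Lt T
  | h (K : List Prog) (b : Bool) : Lt T

/-- Rule names. -/
inductive Ru (T : Type) : Type
  | inc (r : ℕ) (K : List Prog) (b : Bool) : Ru T
  | dec1 (r : ℕ) (K : List Prog) (b : Bool) : Ru T
  | dec0 (r : ℕ) (K : List Prog) (b : Bool) : Ru T
  | seq (p q : Prog) (K : List Prog) (b : Bool) : Ru T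
  | stop (r : ℕ) (p : Prog) (K : List Prog) (b : Bool) : Ru T
  | go (r : ℕ) (p : Prog) (K : List Prog) (b : Bool) : Ru T
  | swap (i j : ℕ) : Ru T
  | rd (a : T) : Ru T
  | run : Ru T
  | cl (j : ℕ) : Ru T
  | fin : Ru T

variable {T : Type}

/-- Left sides. -/
def Ru.lhs : Ru T → List (Lt T)
  | .inc r K b => [.h (.inc r :: K) b]
  | .dec1 r K b => [.t r, .h (.dec r :: K) b]
  | .dec0 r K b => [.h (.dec r :: K) b]
  | .seq p q K b => [.h (.seq p q :: K) b]
  | .stop r p K b => [.h (.loop r p :: K) b]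
  | .go r p K b => [.h (.loop r p :: K) b]
  | .swap i j => [.t i, .t j]
  | .rd _ => [.h [] true]
  | .run => [.h [] true]
  | .cl j => [.t j, .h [] false]
  | .fin => [.h [] false]

/-- Right sides. -/
def Ru.rhs (P : Prog) (R : T → Prog) : Ru T → List (Lt T)
  | .inc r K b => [.t r, .h K b]
  | .dec1 _ K b => [.h K b]
  | .dec0 _ K b => [.h K b]
  | .seq p q K b => [.h (p :: q :: K) b]
  | .stop _ _ K b => [.h K b]
  | .go r p K b => [.h (p :: .loop r p :: K) b]
  | .swap i j => [.t j, .t i]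
  | .rd a => [.h [R a] true, .o a]
  | .run => [.h [P] false]
  | .cl _ => [.h [] false]
  | .fin => []

/-- Left conditions. -/
def Ru.okL : Ru T → Set (Lt T) → Prop
  | .dec0 r _ _, X => .t r ∉ X
  | .stop r _ _ _, X => .t r ∉ X
  | .go r _ _ _, X => .t r ∈ X
  | .rd _, X => ∀ a, .o a ∉ X
  | _, _ => True

/-- Right conditions. -/
def Ru.okR : Ru T → Set (Lt T) → Prop
  | .dec0 r _ _, X => .t r ∉ X
  | .stop r _ _ _, X => .t r ∉ X
  | _, _ => True

/-- Running a stack of programs. -/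
def Runs : List Prog → (ℕ → ℕ) → (ℕ → ℕ) → Prop
  | [], s, u => s = u
  | p :: K, s, u => ∃ t, Run p s t ∧ Runs K t u

/-- Tokens. -/
def tk : Lt T → Option ℕ
  | .t j => some j
  | _ => none

/-- Heads. -/
def hh : Lt T → Option (List Prog × Bool)
  | .h K b => some (K, b)
  | _ => none

/-- Output letters. -/
def oo : Lt T → Option T
  | .o a => some a
  | _ => none

/-- Register contents. -/
def cnt (l : List ℕ) : (ℕ → ℕ) := fun j => l.count j

theorem runs_inc (r K s u) : Runs (.inc r :: K) s u ↔ Runs K (update s r (s r + 1)) u :=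
  ⟨fun ⟨_, h1, h2⟩ => by cases h1; exact h2, fun h => ⟨_, Run.inc r s, h⟩⟩

theorem runs_dec (r K s u) : Runs (.dec r :: K) s u ↔ Runs K (update s r (s r - 1)) u :=
  ⟨fun ⟨_, h1, h2⟩ => by cases h1; exact h2, fun h => ⟨_, Run.dec r s, h⟩⟩

theorem runs_seq (p q K s u) : Runs (.seq p q :: K) s u ↔ Runs (p :: q :: K) s u :=
  ⟨fun ⟨_, h1, h2⟩ => by
    cases h1 with
    | seq h3 h4 => exact ⟨_, h3, _, h4, h2⟩, fun ⟨_, h1, _, h2, h3⟩ => ⟨_, h1.seq h2, h3⟩⟩

theorem runs_stop (r p K s u) (h : s r = 0) : Runs (.loop r p :: K) s u ↔ Runs K s u :=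
  ⟨fun ⟨_, h1, h2⟩ => by
    cases h1 with
    | stop => exact h2
    | go h3 => exact absurd h h3, fun h1 => ⟨_, Run.stop p h, h1⟩⟩

theorem runs_go (r p K s u) (h : s r ≠ 0) :
    Runs (.loop r p :: K) s u ↔ Runs (p :: .loop r p :: K) s u :=
  ⟨fun ⟨_, h1, h2⟩ => by
    cases h1 with
    | stop _ h3 => exact absurd h3 h
    | go _ h3 h4 => exact ⟨_, h3, _, h4, h2⟩, fun ⟨_, h1, _, h2, h3⟩ => ⟨_, Run.go h h1 h2, h3⟩⟩

theorem cnt_ins (a b : List ℕ) (r : ℕ) :
    cnt (a ++ r :: b) = update (cnt (a ++ b)) r (cnt (a ++ b) r + 1) := by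
  funext j
  by_cases h : j = r
  · subst h; simp [cnt, add_assoc]
  · simp [cnt, h, Ne.symm h]

theorem cnt_del (a b : List ℕ) (r : ℕ) :
    cnt (a ++ b) = update (cnt (a ++ r :: b)) r (cnt (a ++ r :: b) r - 1) := by
  rw [cnt_ins]; simp

theorem cnt_zero {u : List (Lt T)} {r : ℕ} : (u.filterMap tk).count r = 0 ↔ .t r ∉ u := by
  rw [List.count_eq_zero, List.mem_filterMap]
  constructor
  · exact fun h hu => h ⟨_, hu, rfl⟩
  · rintro h ⟨a, ha, h1⟩
    cases a <;> simp [tk] at h1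
    exact h (h1 ▸ ha)

/-- The invariant of the simulation. -/
def Cd (e : List T → (ℕ → ℕ)) (L : List T → Prop) (K : List Prog) (b : Bool) (s : (ℕ → ℕ)) (w : List T) :
    Prop := cond b (Runs K s (e w)) ((∃ u, Runs K s u) → L w)

theorem Cd.imp {e : List T → (ℕ → ℕ)} {L : List T → Prop} {K K' : List Prog} {b : Bool} {s s' : (ℕ → ℕ)}
    {w : List T} (h : Cd e L K b s w) (h1 : ∀ u, Runs K s u ↔ Runs K' s' u) : Cd e L K' b s' w := by
  cases b
  · exact fun ⟨u, hu⟩ => h ⟨u, (h1 u).2 hu⟩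
  · exact (h1 _).1 h

/-- The invariant on words. -/
def Iv (e : List T → (ℕ → ℕ)) (L : List T → Prop) (x : List (Lt T)) : Prop :=
  (∃ K b, x.filterMap hh = [(K, b)] ∧ Cd e L K b (cnt (x.filterMap tk)) (x.filterMap oo)) ∨
    (x.filterMap hh = [] ∧ L (x.filterMap oo))

theorem Iv.head {e : List T → (ℕ → ℕ)} {L : List T → Prop} {u v : List (Lt T)} {K b}
    (h : Iv e L (u ++ .h K b :: v)) : u.filterMap hh = [] ∧ v.filterMap hh = [] ∧
      Cd e L K b (cnt (u.filterMap tk ++ v.filterMap tk)) (u.filterMap oo ++ v.filterMap oo) := by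
  simp only [Iv, List.filterMap_append] at h
  change (∃ K' b', _ ++ (K, b) :: v.filterMap hh = _ ∧
    Cd e L K' b' (cnt (_ ++ v.filterMap tk)) (_ ++ v.filterMap oo)) ∨
      (_ ++ (K, b) :: v.filterMap hh = _ ∧ _) at h
  rcases h with ⟨K', b', h1, h2⟩ | ⟨h1, -⟩
  · rcases List.append_eq_singleton_iff.1 h1 with ⟨h3, h4⟩ | ⟨h3, h4⟩
    · simp only [List.cons.injEq, Prod.mk.injEq] at h4
      obtain ⟨⟨rfl, rfl⟩, h4⟩ := h4
      exact ⟨h3, h4, h2⟩
    · simp at h4
  · simp at h1

theorem Iv.mk' {e : List T → (ℕ → ℕ)} {L : List T → Prop} {u v : List (Lt T)} {K b}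
    (h1 : u.filterMap hh = []) (h2 : v.filterMap hh = [])
    (h : Cd e L K b (cnt (u.filterMap tk ++ v.filterMap tk)) (u.filterMap oo ++ v.filterMap oo)) :
    Iv e L (u ++ .h K b :: v) := by
  refine Or.inl ⟨K, b, ?_, ?_⟩
  · rw [List.filterMap_append, h1]
    exact congrArg (List.cons (K, b)) h2
  · simp only [List.filterMap_append]
    exact h

theorem iv_step {e : List T → (ℕ → ℕ)} {L : List T → Prop} {P : Prog} {R : T → Prog}
    (hR : ∀ a w, Run (R a) (e w) (e (a :: w))) (hP : ∀ w, (∃ u, Run P (e w) u) → L w)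
    (ρ : Ru T) (u v : List (Lt T)) (h1 : ρ.okL {a | a ∈ u}) (h2 : ρ.okR {a | a ∈ v})
    (h : Iv e L (u ++ ρ.lhs ++ v)) : Iv e L (u ++ ρ.rhs P R ++ v) := by
  have z : ∀ r, .t r ∉ u → .t r ∉ v → cnt (u.filterMap tk ++ v.filterMap tk) r = 0 :=
    fun r a b => by simp [cnt, cnt_zero.2 a, cnt_zero.2 b]
  have e1 : ∀ r, (u ++ [Lt.t r]).filterMap hh = u.filterMap hh := fun r => by simp [hh]
  have e2 : ∀ r, (u ++ [Lt.t r]).filterMap oo = u.filterMap oo := fun r => by simp [oo]
  have e3 : ∀ r, (u ++ [Lt.t r]).filterMap tk ++ v.filterMap tk =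
    u.filterMap tk ++ r :: v.filterMap tk := fun r => by simp [tk]
  cases ρ with
  | inc r K b =>
    obtain ⟨a1, a2, a3⟩ := Iv.head (by simpa [Ru.lhs] using h)
    have := Iv.mk' (u := u ++ [.t r]) (K := K) (b := b) (e := e) (L := L) ((e1 r).trans a1) a2 (by
      rw [e2, e3, cnt_ins]; exact a3.imp (runs_inc _ _ _))
    simpa [Ru.rhs] using this
  | dec1 r K b =>
    obtain ⟨a1, a2, a3⟩ := Iv.head (u := u ++ [.t r]) (by simpa [Ru.lhs] using h)
    rw [e2, e3] at a3
    simpa [Ru.rhs] using Iv.mk' ((e1 r).symm.trans a1) a2 (by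
      rw [cnt_del _ _ r]; exact a3.imp (runs_dec _ _ _))
  | dec0 r K b =>
    obtain ⟨a1, a2, a3⟩ := Iv.head (by simpa [Ru.lhs] using h)
    simpa [Ru.rhs] using Iv.mk' a1 a2 (a3.imp (fun t => by
      rw [runs_dec, show ∀ s : (ℕ → ℕ), s r = 0 → update s r (s r - 1) = s from
        fun s hs => by rw [hs, Nat.zero_sub, ← hs, update_eq_self]]
      exact z r h1 h2))
  | seq p q K b =>
    obtain ⟨a1, a2, a3⟩ := Iv.head (by simpa [Ru.lhs] using h)
    simpa [Ru.rhs] using Iv.mk' a1 a2 (a3.imp (runs_seq _ _ _ _))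
  | stop r p K b =>
    obtain ⟨a1, a2, a3⟩ := Iv.head (by simpa [Ru.lhs] using h)
    simpa [Ru.rhs] using Iv.mk' a1 a2 (a3.imp (fun t => runs_stop _ _ _ _ _ (z r h1 h2)))
  | go r p K b =>
    obtain ⟨a1, a2, a3⟩ := Iv.head (by simpa [Ru.lhs] using h)
    simpa [Ru.rhs] using Iv.mk' a1 a2 (a3.imp (fun t => runs_go _ _ _ _ _ (fun h3 => by
      simp only [cnt, List.count_append, Nat.add_eq_zero_iff] at h3
      exact cnt_zero.1 h3.1 h1)))
  | swap i j =>
    have : cnt ((u ++ (Ru.swap i j).rhs P R ++ v).filterMap tk) =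
        cnt ((u ++ (Ru.swap i j).lhs ++ v).filterMap tk) := by
      funext k
      simp only [cnt, Ru.lhs, Ru.rhs, List.filterMap_append, List.count_append]
      change _ + List.count k [j, i] + _ = _ + List.count k [i, j] + _
      rw [(List.Perm.swap i j []).count_eq]
    unfold Iv at h ⊢
    rw [this]
    simp only [List.filterMap_append] at h ⊢
    exact h
  | rd a =>
    obtain ⟨a1, a2, a3⟩ := Iv.head (by simpa [Ru.lhs] using h)
    have a4 : u.filterMap oo = [] := List.filterMap_eq_nil_iff.2 (fun x hx => by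
      cases x with
      | o c => exact absurd hx (h1 c)
      | t => rfl
      | h => rfl)
    have := Iv.mk' (v := .o a :: v) (K := [R a]) (b := true) (e := e) (L := L) a1 a2 (by
      rw [a4] at a3 ⊢
      exact ⟨_, (show _ = e _ from a3) ▸ hR a _, rfl⟩)
    simpa [Ru.rhs] using this
  | run =>
    obtain ⟨a1, a2, a3⟩ := Iv.head (by simpa [Ru.lhs] using h)
    have := Iv.mk' (K := [P]) (b := false) (e := e) (L := L) a1 a2
      (fun ⟨_, t, h3, _⟩ => hP _ ⟨t, (show _ = e _ from a3) ▸ h3⟩)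
    simpa [Ru.rhs] using this
  | cl r =>
    obtain ⟨a1, a2, a3⟩ := Iv.head (u := u ++ [.t r]) (by simpa [Ru.lhs] using h)
    rw [e2] at a3
    have := Iv.mk' (K := []) (b := false) (e := e) (L := L) ((e1 r).symm.trans a1) a2
      (fun _ => a3 ⟨_, rfl⟩)
    simpa [Ru.rhs] using this
  | fin =>
    obtain ⟨a1, a2, a3⟩ := Iv.head (by simpa [Ru.lhs] using h)
    exact Or.inr ⟨by simp [Ru.rhs, a1, a2], by simpa [Ru.rhs] using a3 ⟨_, rfl⟩⟩

end Pool.Agent.H.MP_fc8a61_lc
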