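import Pool.Agent.H.MP_fc8a61_lc.D

set_option autoImplicit false

namespace Pool.Agent.H.MP_fc8a61_lc

open Relation Function Pool.Agent.Lib.helper21.While

variable {T : Type}

/-- Rules used by a program. -/
def ru : Prog → List Prog → Bool → List (Ru T)
  | .inc r, K, b => [.inc r K b]
  | .dec r, K, b => [.dec1 r K b, .dec0 r K b]
  | .seq p q, K, b => .seq p q K b :: (ru p (q :: K) b ++ ru q K b)
  | .loop r p, K, b => .stop r p K b :: .go r p K b :: ru p (.loop r p :: K) b

/-- Registers that can hold tokens. -/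
def Reg (F : Set (Ru T)) (j : ℕ) : Prop := ∃ K b, Ru.inc j K b ∈ F

/-- Steps with rules from a set. -/
def FS (F : Set (Ru T)) (P : Prog) (R : T → Prog) : List (Lt T) → List (Lt T) → Prop :=
  CS (fun i : F => i.1.lhs) (fun i => i.1.rhs P R) (fun i => i.1.okL) (fun i => i.1.okR)

variable {F : Set (Ru T)} {P : Prog} {R : T → Prog}

theorem fs (ρ : Ru T) (h : ρ ∈ F) (u v : List (Lt T)) (h1 : ρ.okL {a | a ∈ u})
    (h2 : ρ.okR {a | a ∈ v}) {x y : List (Lt T)} (hx : x = u ++ ρ.lhs ++ v)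
    (hy : y = u ++ ρ.rhs P R ++ v) : FS F P R x y :=
  ⟨⟨ρ, h⟩, u, v, hx, hy, h1, h2⟩

theorem move (hsw : ∀ i j, Reg F i → Reg F j → .swap i j ∈ F) (j : ℕ) (hj : Reg F j)
    (z : List (Lt T)) (l : List ℕ) : ∀ u : List (Lt T), (∀ i ∈ l, Reg F i) →
      ReflTransGen (FS F P R) (u ++ .t j :: l.map .t ++ z) (u ++ l.map .t ++ .t j :: z) := by
  induction l with
  | nil => intro u _; simpa using ReflTransGen.refl
  | cons i l ih =>
    intro u h
    have := ih (u ++ [.t i]) (fun k hk => h k (by simp [hk]))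
    refine ReflTransGen.head (fs (.swap j i) (hsw _ _ hj (h i (by simp))) u (l.map .t ++ z) trivial
      trivial (by simp [Ru.lhs]) rfl) (by simpa [Ru.rhs] using this)

theorem sim (hsw : ∀ i j, Reg F i → Reg F j → .swap i j ∈ F) {p : Prog} {s s' : ℕ → ℕ}
    (h : Run p s s') (b : Bool) (v : List T) : ∀ (K : List Prog) (l : List ℕ),
      (∀ ρ ∈ ru p K b, ρ ∈ F) → (∀ j ∈ l, Reg F j) → cnt l = s →
      ∃ l' : List ℕ, (∀ j ∈ l', Reg F j) ∧ cnt l' = s' ∧ ReflTransGen (FS F P R)
        (l.map .t ++ .h (p :: K) b :: v.map .o) (l'.map .t ++ .h K b :: v.map .o) := by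
  induction h with
  | inc r s =>
    rintro K l h1 h2 rfl
    have h3 : Ru.inc r K b ∈ F := h1 _ (by simp [ru])
    refine ⟨l ++ [r], fun j hj => ?_, by simpa using cnt_ins l [] r, ReflTransGen.single
      (fs _ h3 (l.map .t) (v.map .o) trivial trivial (by simp [Ru.lhs]) (by simp [Ru.rhs]))⟩
    rcases List.mem_append.1 hj with hj | hj
    · exact h2 j hj
    · rw [List.mem_singleton.1 hj]; exact ⟨K, b, h3⟩
  | dec r s =>
    rintro K l h1 h2 rfl
    by_cases hr : r ∈ l
    · obtain ⟨l1, l2, rfl⟩ := List.append_of_mem hr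
      refine ⟨l1 ++ l2, fun j hj => h2 j (by
        simp only [List.mem_append, List.mem_cons] at hj ⊢; tauto), cnt_del _ _ _, ?_⟩
      have := move (P := P) (R := R) hsw r (h2 r hr) (.h (.dec r :: K) b :: v.map .o) l2 (l1.map .t)
        (fun i hi => h2 i (by simp [hi]))
      exact ReflTransGen.tail (by simpa [Ru.lhs] using this) (fs (.dec1 r K b) (h1 _ (by simp [ru]))
        (l1.map .t ++ l2.map .t) (v.map .o) trivial trivial rfl (by simp [Ru.rhs]))
    · refine ⟨l, h2, ?_, ReflTransGen.single (fs (.dec0 r K b) (h1 _ (by simp [ru])) (l.map .t)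
        (v.map .o) (by simpa [Ru.okL] using hr) (by simp [Ru.okR]) (by simp [Ru.lhs])
        (by simp [Ru.rhs]))⟩
      have : cnt l r = 0 := List.count_eq_zero.2 hr
      rw [this, Nat.zero_sub, ← this, update_eq_self]
  | @seq p q s t u _ _ ih1 ih2 =>
    intro K l h1 h2 h3
    obtain ⟨l1, a1, a2, a3⟩ := ih1 (q :: K) l (fun ρ hρ => h1 ρ (by simp [ru, hρ])) h2 h3
    obtain ⟨l2, b1, b2, b3⟩ := ih2 K l1 (fun ρ hρ => h1 ρ (by simp [ru, hρ])) a1 a2
    exact ⟨l2, b1, b2, ReflTransGen.head (fs (.seq p q K b) (h1 _ (by simp [ru])) (l.map .t)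
      (v.map .o) trivial trivial (by simp [Ru.lhs]) (by simp [Ru.rhs])) (a3.trans b3)⟩
  | @stop r p s h0 =>
    rintro K l h1 h2 rfl
    exact ⟨l, h2, rfl, ReflTransGen.single (fs (.stop r p K b) (h1 _ (by simp [ru])) (l.map .t)
      (v.map .o) (by simpa [Ru.okL] using List.count_eq_zero.1 h0) (by simp [Ru.okR])
      (by simp [Ru.lhs]) (by simp [Ru.rhs]))⟩
  | @go r p s t u h0 _ _ ih1 ih2 =>
    rintro K l h1 h2 rfl
    obtain ⟨l1, a1, a2, a3⟩ := ih1 (.loop r p :: K) l (fun ρ hρ => h1 ρ (by simp [ru, hρ])) h2 rfl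
    obtain ⟨l2, b1, b2, b3⟩ := ih2 K l1 h1 a1 a2
    have hr : r ∈ l := by
      by_contra h
      exact h0 (List.count_eq_zero.2 h)
    exact ⟨l2, b1, b2, ReflTransGen.head (fs (.go r p K b) (h1 _ (by simp [ru])) (l.map .t)
      (v.map .o) (by simpa [Ru.okL] using hr) trivial (by simp [Ru.lhs]) (by simp [Ru.rhs]))
      (a3.trans b3)⟩

theorem cleanup (hcl : ∀ j, Reg F j → .cl j ∈ F) (z : List (Lt T)) (l : List ℕ)
    (h : ∀ j ∈ l, Reg F j) :
    ReflTransGen (FS F P R) (l.map .t ++ .h [] false :: z) (.h [] false :: z) := by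
  induction l using List.reverseRecOn with
  | nil => exact ReflTransGen.refl
  | append_singleton l j ih =>
    exact ReflTransGen.head (fs (.cl j) (hcl j (h j (by simp))) (l.map .t) z trivial trivial
      (by simp [Ru.lhs]) (by simp [Ru.rhs])) (ih (fun i hi => h i (by simp [hi])))

theorem machine [Finite T] (e : List T → ℕ → ℕ) (he : e [] = fun _ => 0) (L : List T → Prop)
    (P : Prog) (R : T → Prog) (hR : ∀ a w, Run (R a) (e w) (e (a :: w)))
    (hP : ∀ w, (∃ u, Run P (e w) u) ↔ L w) :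
    ∃ (N : Type) (_ : Finite N) (S : N) (Q : Finset (N × List (Symbol T N) × Finset N × Finset N)),
      ∀ w : List T, ReflTransGen (LS Q) [.nonterminal S] (w.map .terminal) ↔ L w := by
  let F0 : Set (Ru T) := ({ρ | ρ ∈ ru P [] false} ∪ ⋃ a, {ρ | ρ ∈ ru (R a) [] true}) ∪
    (Set.range .rd ∪ {.run, .fin})
  have h0 : F0.Finite := ((List.finite_toSet _).union
    (Set.finite_iUnion (fun a => List.finite_toSet _))).union
      ((Set.finite_range _).union (Set.toFinite _))
  have h1 : {j | Reg F0 j}.Finite := by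
    refine (h0.image (fun ρ => match ρ with
      | .inc j _ _ => j
      | _ => 0)).subset ?_
    rintro j ⟨K, b, h⟩
    exact ⟨_, h, rfl⟩
  let F : Set (Ru T) := F0 ∪ (Set.image2 .swap {j | Reg F0 j} {j | Reg F0 j} ∪ .cl '' {j | Reg F0 j})
  have hF : F.Finite := h0.union ((h1.image2 _ h1).union (h1.image _))
  have hreg : ∀ j, Reg F j → Reg F0 j := by
    rintro j ⟨K, b, h | ⟨_, _, _, _, h⟩ | ⟨_, _, h⟩⟩
    · exact ⟨K, b, h⟩
    · cases h
    · cases h
  have hsw : ∀ i j, Reg F i → Reg F j → .swap i j ∈ F := fun i j hi hj =>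
    Or.inr (Or.inl ⟨i, hreg i hi, j, hreg j hj, rfl⟩)
  have hcl : ∀ j, Reg F j → .cl j ∈ F := fun j hj => Or.inr (Or.inr ⟨j, hreg j hj, rfl⟩)
  haveI := hF.to_subtype
  obtain ⟨N, hN, S, Q, h⟩ := layer3 (T := T) Lt.o [.h [] true] (fun i : F => i.1.lhs)
    (fun i => i.1.rhs P R) (fun i => i.1.okL) (fun i => i.1.okR)
  refine ⟨N, hN, S, Q, fun w => (h w).trans ⟨fun h2 => ?_, fun h2 => ?_⟩⟩
  · have key : ∀ y, ReflTransGen (FS F P R) [.h [] true] y → Iv e L y := by
      intro y hy
      induction hy with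
      | refl => exact Or.inl ⟨[], true, rfl, he.symm⟩
      | tail _ h3 ih =>
        obtain ⟨i, u, v, rfl, rfl, h3, h4⟩ := h3
        exact iv_step hR (fun w => (hP w).1) _ u v h3 h4 ih
    rcases key _ h2 with ⟨K, b, h3, -⟩ | ⟨-, h3⟩
    · simp [List.filterMap_map, hh] at h3
    · simpa [List.filterMap_map, oo, Function.comp_def] using h3
  · have key : ∀ w : List T, ∃ l : List ℕ, (∀ j ∈ l, Reg F j) ∧ cnt l = e w ∧
        ReflTransGen (FS F P R) [.h [] true] (l.map .t ++ .h [] true :: w.map .o) := by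
      intro w
      induction w with
      | nil => exact ⟨[], by simp, he.symm, ReflTransGen.refl⟩
      | cons a w ih =>
        obtain ⟨l, a1, a2, a3⟩ := ih
        obtain ⟨l', b1, b2, b3⟩ := sim (P := P) (R := R) hsw (hR a w) true (a :: w) [] l
          (fun ρ hρ => Or.inl (Or.inl (Or.inr (Set.mem_iUnion.2 ⟨a, hρ⟩)))) a1 a2
        exact ⟨l', b1, b2, (a3.tail (fs (.rd a) (Or.inl (Or.inr (Or.inl ⟨a, rfl⟩))) (l.map .t)
          (w.map .o) (by simp [Ru.okL]) trivial (by simp [Ru.lhs]) (by simp [Ru.rhs]))).trans b3⟩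
    obtain ⟨l, a1, a2, a3⟩ := key w
    obtain ⟨u, hu⟩ := (hP w).2 h2
    obtain ⟨l', b1, -, b3⟩ := sim (P := P) (R := R) hsw hu false w [] l
      (fun ρ hρ => Or.inl (Or.inl (Or.inl hρ))) a1 a2
    exact (((a3.tail (fs .run (Or.inl (Or.inr (Or.inr (by simp)))) (l.map .t)
      (w.map .o) trivial trivial (by simp [Ru.lhs]) (by simp [Ru.rhs]))).trans b3).trans
        (cleanup hcl _ l' b1)).tail (fs .fin (Or.inl (Or.inr (Or.inr (by simp)))) [] (w.map .o)
          trivial trivial rfl rfl)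

theorem unary_prog {f : ℕ → ℕ} (hf : Primrec f) : ∃ P : Prog, ∀ n, Run P (init n) (init (f n)) := by
  obtain ⟨Q, hQ⟩ := prim_prog (Nat.Primrec'.prim_iff₁.2 hf) ![0] 1 2 (by decide) (by decide)
    (by decide)
  refine ⟨.seq Q (.seq (clr 0) (mov 1 0)), fun n => (Run.seq (hQ _ (fun r hr => by
    simp only [init, update_apply]; split_ifs <;> omega)) (Run.seq (run_clr _ _)
      (run_mov (by decide) _))).of_eq (fun x => ?_)⟩
  have e : (List.Vector.ofFn fun i => init n (![0] i)).head = n := by simp [init]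
  rw [e]
  simp only [init, update_apply]
  split_ifs <;> first | omega | contradiction

theorem re_lrc [Finite T] [Primcodable T] (L : List T → Prop) (hL : REPred L) :
    ∃ (N : Type) (_ : Finite N) (S : N) (Q : Finset (N × List (Symbol T N) × Finset N × Finset N)),
      ∀ w : List T, ReflTransGen (LS Q) [.nonterminal S] (w.map .terminal) ↔ L w := by
  obtain ⟨c, hc⟩ := Nat.Partrec.Code.exists_code.1 hL
  obtain ⟨P, hP⟩ := search_prog (g := fun n k => Encodable.encode
    (Nat.Partrec.Code.evaln k c n).isNone)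
    (Primrec.encode.comp (Primrec.not.comp (Primrec.option_isSome.comp
      (Nat.Partrec.Code.primrec_evaln.comp ((Primrec.snd.pair (Primrec.const c)).pair
        Primrec.fst)))) |>.of_eq (fun x => by simp))
  choose R hR using fun a : T => unary_prog (f := fun n => Nat.pair (Encodable.encode a) n + 1)
    (Primrec.succ.comp (Primrec₂.natPair.comp (Primrec.const _) Primrec.id))
  refine machine (fun w => init (Encodable.encode w)) (by simp [init]) L P R
    (fun a w => hR a _) (fun w => ?_)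
  rw [hP]
  have h1 : L w ↔ (c.eval (Encodable.encode w)).Dom := by
    rw [hc]
    simp [Part.assert]
  rw [h1, Part.dom_iff_mem]
  simp only [Nat.Partrec.Code.evaln_complete]
  constructor
  · rintro ⟨k, hk⟩
    cases e : Nat.Partrec.Code.evaln k c (Encodable.encode w) with
    | none => rw [e] at hk; exact absurd hk (by decide)
    | some x => exact ⟨x, k, e⟩
  · rintro ⟨x, k, hk⟩
    exact ⟨k, by rw [show Nat.Partrec.Code.evaln k c _ = some x from hk]; rfl⟩

end Pool.Agent.H.MP_fc8a61_lc
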